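import Pool.Agent.Q276.PL.Stm

/-!
# Project PL (helper276), job STR: relations with `x - 1` or `x + 1` from a square
-/

set_option autoImplicit false

namespace Pool.Agent.Q247.PL

open Polynomial Pool.Agent.W223.HZ Pool.Agent.W223.PL Pool.Agent.Q276.PL

theorem ev (P : ℤ[X]) (τ : ℤ) :
    ((P.eval τ : ℤ) : ℚ) = (P.map (Int.castRingHom ℚ)).eval (τ : ℚ) := by
  rw [Polynomial.eval_intCast_map]; rfl

/-- integral multiples of rational polynomials -/
theorem intmult (p : ℚ[X]) : ∃ (N : ℤ) (P : ℤ[X]), N ≠ 0 ∧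
    P.map (Int.castRingHom ℚ) = C (N : ℚ) * p := by
  obtain ⟨b, hb⟩ := IsLocalization.integerNormalization_map_to_map (nonZeroDivisors ℤ) p
  refine ⟨(b : ℤ), IsLocalization.integerNormalization (nonZeroDivisors ℤ) p,
    nonZeroDivisors.ne_zero b.2, ?_⟩
  have h1 : (algebraMap ℤ ℚ) = Int.castRingHom ℚ := rfl
  rw [h1] at hb
  rw [hb]
  ext n
  simp

theorem cop {a b l H : ℚ[X]} (hl : l.natDegree = 1) (hco : IsCoprime a b) (ha : a ≠ 0)
    (hH : H ^ 2 = b ^ 2 - l * a ^ 2) : IsCoprime (b - H) (b + H) := by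
  have hl0 : l ≠ 0 := by rintro rfl; simp at hl
  have hprod : (b - H) * (b + H) = l * a ^ 2 := by linear_combination -hH
  apply isCoprime_of_irreducible_dvd
  · rintro ⟨h1, h2⟩
    rw [h1, zero_mul] at hprod
    exact mul_ne_zero hl0 (pow_ne_zero 2 ha) hprod.symm
  · intro π hπ h1 h2
    have h2b : π ∣ b := by
      have h3 : π ∣ C (2 : ℚ)⁻¹ * ((b - H) + (b + H)) := (dvd_add h1 h2).mul_left _
      have h4 : C (2 : ℚ)⁻¹ * ((b - H) + (b + H)) = b := by
        have : (b - H) + (b + H) = C (2 : ℚ) * b := by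
          have h2' : (C (2 : ℚ) : ℚ[X]) = 2 := rfl
          rw [h2']; ring
        rw [this, ← mul_assoc, ← C_mul, inv_mul_cancel₀ (by norm_num), C_1, one_mul]
      rwa [h4] at h3
    have h5 : π ^ 2 ∣ l * a ^ 2 := by
      rw [← hprod, pow_two]
      exact mul_dvd_mul h1 h2
    by_cases h6 : π ∣ a
    · exact hπ.not_isUnit (hco.isUnit_of_dvd' h6 h2b)
    · have h7 : IsCoprime π a := (hπ.coprime_iff_not_dvd).2 h6
      have h8 : π ^ 2 ∣ l := (h7.pow (m := 2) (n := 2)).dvd_of_dvd_mul_right h5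
      have h9 := natDegree_le_of_dvd h8 hl0
      rw [natDegree_pow, hl] at h9
      have h10 : 0 < π.natDegree := hπ.natDegree_pos
      omega

theorem fac {a b l H : ℚ[X]} (hl : l.natDegree = 1) (hco : IsCoprime a b) (ha : a ≠ 0)
    (hH : H ^ 2 = b ^ 2 - l * a ^ 2) (hd : l ∣ b - H) :
    ∃ (c : ℚ) (S T : ℚ[X]), c ≠ 0 ∧ a = S * T ∧ b + H = C c * T ^ 2 := by
  have hl0 : l ≠ 0 := by rintro rfl; simp at hl
  have hc := cop hl hco ha hH
  obtain ⟨K, hK⟩ := hd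
  have h1 : (b + H) * K = a ^ 2 := by
    have : l * ((b + H) * K) = l * a ^ 2 := by
      calc l * ((b + H) * K) = (l * K) * (b + H) := by ring
        _ = (b - H) * (b + H) := by rw [hK]
        _ = l * a ^ 2 := by linear_combination -hH
    exact mul_left_cancel₀ hl0 this
  have h2 : IsCoprime (b + H) K := by
    rw [hK] at hc
    exact (hc.of_mul_left_right).symm
  obtain ⟨T, u, hT⟩ := exists_associated_pow_of_mul_eq_pow' h2 h1
  have h3 : T ∣ a := by
    have : T ^ 2 ∣ a ^ 2 := by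
      rw [← h1, ← hT]
      exact Dvd.intro _ (by ring : T ^ 2 * (u * K) = T ^ 2 * u * K)
    exact (IsIntegrallyClosed.pow_dvd_pow_iff two_ne_zero).1 this
  obtain ⟨S, hS⟩ := h3
  obtain ⟨c, hc1, hc2⟩ := Polynomial.isUnit_iff.1 u.isUnit
  refine ⟨c, S, T, hc1.ne_zero, by rw [hS]; ring, ?_⟩
  rw [← hT, ← hc2]
  ring

theorem str : StmtSTR := by
  intro m A B d₀ hA hAm _ hco hns
  unfold NonSq at hns
  push Not at hns
  obtain ⟨P₁, P₂, hne, heq⟩ := hns
  have hφ : Function.Injective (Int.castRingHom ℚ) := Int.cast_injective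
  have hP2 : P₂ ≠ 0 := by
    rintro rfl
    have : P₁ ^ 2 = 0 := by simpa using heq
    have h1 : P₁ = 0 := by simpa using this
    rcases hne with h | h
    · exact h h1
    · exact h rfl
  have e1 : (P₁.map (Int.castRingHom ℚ)) ^ 2 = (P₂.map (Int.castRingHom ℚ)) ^ 2 *
      ((B.map (Int.castRingHom ℚ)) ^ 2 - (C (d₀ : ℚ) + X) * (A.map (Int.castRingHom ℚ)) ^ 2) := by
    have h1 : P₁ ^ 2 = P₂ ^ 2 * (B ^ 2 - (C d₀ + X) * A ^ 2) := by
      linear_combination heq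
    have h2 := congrArg (Polynomial.map (Int.castRingHom ℚ)) h1
    simpa using h2
  have ha : A.map (Int.castRingHom ℚ) ≠ 0 := (Polynomial.map_ne_zero_iff hφ).2 hA
  have hp2 : P₂.map (Int.castRingHom ℚ) ≠ 0 := (Polynomial.map_ne_zero_iff hφ).2 hP2
  have hadeg : (A.map (Int.castRingHom ℚ)).natDegree = A.natDegree :=
    natDegree_map_eq_of_injective hφ A
  have evA := ev A
  have evB := ev B
  generalize A.map (Int.castRingHom ℚ) = a at *
  generalize B.map (Int.castRingHom ℚ) = b at *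
  generalize P₁.map (Int.castRingHom ℚ) = p₁ at *
  generalize P₂.map (Int.castRingHom ℚ) = p₂ at *
  have hdvd : p₂ ∣ p₁ := (IsIntegrallyClosed.pow_dvd_pow_iff two_ne_zero).1 ⟨_, e1⟩
  obtain ⟨H, rfl⟩ := hdvd
  have hH : H ^ 2 = b ^ 2 - (C (d₀ : ℚ) + X) * a ^ 2 := by
    have : p₂ ^ 2 * H ^ 2 = p₂ ^ 2 * (b ^ 2 - (C (d₀ : ℚ) + X) * a ^ 2) := by
      rw [← e1]; ring
    exact mul_left_cancel₀ (pow_ne_zero 2 hp2) this
  have hldeg : (C (d₀ : ℚ) + X : ℚ[X]).natDegree = 1 := by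
    rw [add_comm]; exact natDegree_X_add_C _
  have hlp : Prime (C (d₀ : ℚ) + X : ℚ[X]) := by
    have : (C (d₀ : ℚ) + X : ℚ[X]) = X - C (-(d₀ : ℚ)) := by rw [C_neg]; ring
    rw [this]; exact prime_X_sub_C _
  obtain ⟨H', hH', hd⟩ : ∃ H' : ℚ[X], H' ^ 2 = b ^ 2 - (C (d₀ : ℚ) + X) * a ^ 2 ∧
      (C (d₀ : ℚ) + X) ∣ b - H' := by
    have h1 : (C (d₀ : ℚ) + X) ∣ (b - H) * (b + H) := ⟨a ^ 2, by linear_combination -hH⟩
    rcases hlp.dvd_or_dvd h1 with h | h
    · exact ⟨H, hH, h⟩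
    · exact ⟨-H, by rw [neg_sq, hH], by rwa [sub_neg_eq_add]⟩
  obtain ⟨c, S, T, hc0, hST, hbT⟩ := fac hldeg hco ha hH' hd
  have hS0 : S ≠ 0 := by rintro rfl; rw [zero_mul] at hST; exact ha hST
  have hT0 : T ≠ 0 := by rintro rfl; rw [mul_zero] at hST; exact ha hST
  have hdeg : S.natDegree + T.natDegree = A.natDegree := by
    rw [← hadeg, hST, natDegree_mul hS0 hT0]
  obtain ⟨N₁, P₀, hN₁, hP₀⟩ := intmult S
  obtain ⟨N₂, Q₀, hN₂, hQ₀⟩ := intmult (C c * T)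
  have hmapP : (C N₂ * P₀).map (Int.castRingHom ℚ) = C ((N₁ * N₂ : ℤ) : ℚ) * S := by
    rw [Polynomial.map_mul, hP₀, Polynomial.map_C]
    simp only [eq_intCast, Int.cast_mul, C_mul]
    ring
  have hmapQ : (C N₁ * Q₀).map (Int.castRingHom ℚ) = C ((N₁ * N₂ : ℤ) : ℚ) * (C c * T) := by
    rw [Polynomial.map_mul, hQ₀, Polynomial.map_C]
    simp only [eq_intCast, Int.cast_mul, C_mul]
    ring
  have hN : ((N₁ * N₂ : ℤ) : ℚ) ≠ 0 := by exact_mod_cast mul_ne_zero hN₁ hN₂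
  refine ⟨C N₂ * P₀, C N₁ * Q₀, Or.inl ?_, ?_, ?_, ?_⟩
  · intro h
    have h1 := hmapP
    rw [h, Polynomial.map_zero] at h1
    exact mul_ne_zero (C_ne_zero.2 hN) hS0 h1.symm
  · rw [← natDegree_map_eq_of_injective hφ, hmapP, natDegree_C_mul hN]
    omega
  · rw [← natDegree_map_eq_of_injective hφ, hmapQ, natDegree_C_mul hN, natDegree_C_mul hc0]
    omega
  · intro τ x y g hg hy hxy hAτ hBτ
    have hAq : a.eval (τ : ℚ) = y * g := by rw [← evA, hAτ]; push_cast; ring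
    have hBq : b.eval (τ : ℚ) = -x * g := by rw [← evB, hBτ]; push_cast; ring
    have hs : S.eval (τ : ℚ) * T.eval (τ : ℚ) = y * g := by
      rw [← hAq, hST, eval_mul]
    have hxyq : (x : ℚ) ^ 2 - (d₀ + τ) * (y : ℚ) ^ 2 = 1 := by exact_mod_cast hxy
    have hh : (H'.eval (τ : ℚ)) ^ 2 = (g : ℚ) ^ 2 := by
      have h1 := congrArg (Polynomial.eval (τ : ℚ)) hH'
      simp only [eval_pow, eval_sub, eval_mul, eval_add, eval_C, eval_X, hAq, hBq] at h1
      rw [h1]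
      linear_combination (g : ℚ) ^ 2 * hxyq
    have ht : -x * g + H'.eval (τ : ℚ) = c * (T.eval (τ : ℚ)) ^ 2 := by
      have h1 := congrArg (Polynomial.eval (τ : ℚ)) hbT
      simp only [eval_pow, eval_add, eval_mul, eval_C, hBq] at h1
      exact h1
    have hgq : (g : ℚ) ≠ 0 := by exact_mod_cast hg
    have hyq : (y : ℚ) ≠ 0 := by
      have : y ≠ 0 := by omega
      exact_mod_cast this
    have hT1 : T.eval (τ : ℚ) ≠ 0 := by
      intro h0
      rw [h0, mul_zero] at hs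
      exact mul_ne_zero hyq hgq hs.symm
    have hPe : (((C N₂ * P₀).eval τ : ℤ) : ℚ) = ((N₁ * N₂ : ℤ) : ℚ) * S.eval (τ : ℚ) := by
      rw [ev, hmapP, eval_mul, eval_C]
    have hQe : (((C N₁ * Q₀).eval τ : ℤ) : ℚ) = ((N₁ * N₂ : ℤ) : ℚ) * (c * T.eval (τ : ℚ)) := by
      rw [ev, hmapQ, eval_mul, eval_mul, eval_C, eval_C]
    rcases sq_eq_sq_iff_eq_or_eq_neg.1 hh with h | h
    · left
      have h3 : (((x - 1) * (C N₂ * P₀).eval τ + y * (C N₁ * Q₀).eval τ : ℤ) : ℚ) = 0 := by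
        push_cast [hPe, hQe]
        have h4 : ((x : ℚ) - 1) * (((N₁ * N₂ : ℤ) : ℚ) * S.eval (τ : ℚ)) +
            y * (((N₁ * N₂ : ℤ) : ℚ) * (c * T.eval (τ : ℚ))) = 0 := by
          apply mul_right_cancel₀ hT1
          rw [h] at ht
          linear_combination (x - 1) * ((N₁ * N₂ : ℤ) : ℚ) * hs - y * ((N₁ * N₂ : ℤ) : ℚ) * ht
        push_cast at h4
        exact h4
      exact_mod_cast h3
    · right
      have h3 : (((x + 1) * (C N₂ * P₀).eval τ + y * (C N₁ * Q₀).eval τ : ℤ) : ℚ) = 0 := by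
        push_cast [hPe, hQe]
        have h4 : ((x : ℚ) + 1) * (((N₁ * N₂ : ℤ) : ℚ) * S.eval (τ : ℚ)) +
            y * (((N₁ * N₂ : ℤ) : ℚ) * (c * T.eval (τ : ℚ))) = 0 := by
          apply mul_right_cancel₀ hT1
          rw [h] at ht
          linear_combination (x + 1) * ((N₁ * N₂ : ℤ) : ℚ) * hs - y * ((N₁ * N₂ : ℤ) : ℚ) * ht
        push_cast at h4
        exact h4
      exact_mod_cast h3

end Pool.Agent.Q247.PL
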